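import Pool.Agent.R410.OR.HW

/-!
# The Hasse-Witt matrix of `y² = x ^ d - c` and `y² = x (x ^ d - c)`
-/

set_option autoImplicit false
set_option linter.all false

open Polynomial

namespace Pool.Agent.NH36.Pen

open Pool.Agent.R410.OR (hw)

theorem kummer_det {F : Type*} [Field F] {p : ℕ} [Fact p.Prime] [CharP F p] {d ε : ℕ} (hd : 0 < d)
    (hε : ε ≤ 1) {c : F} (hc : c ≠ 0) (hp : 2 * d ∣ p - 1) :
    (hw p ((d + ε - 1) / 2) (X ^ ε * (X ^ d - C c))).det ≠ 0 := by
  have hp0 := (Fact.out : p.Prime)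
  obtain ⟨r, hr⟩ := hp
  have hpos := hp0.one_lt
  have hpr : p = 2 * d * r + 1 := by omega
  have hr0 : 0 < r := by
    rcases Nat.eq_zero_or_pos r with h0 | h0
    · rw [h0, mul_zero] at hpr; omega
    · exact h0
  have hh : (p - 1) / 2 = d * r := by
    rw [hr, mul_assoc]; exact Nat.mul_div_cancel_left _ two_pos
  have key : hw p ((d + ε - 1) / 2) (X ^ ε * (X ^ d - C c)) =
      Matrix.diagonal fun i : Fin ((d + ε - 1) / 2) =>
        (-c) ^ (d * r - r * (2 * ((i : ℕ) + 1) - ε)) *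
          (((d * r).choose (r * (2 * ((i : ℕ) + 1) - ε)) : ℕ) : F) := by
    ext i j
    have hi := i.2
    have hj := j.2
    change (X ^ ((j : ℕ) + 1) * (X ^ ε * (X ^ d - C c)) ^ ((p - 1) / 2)).coeff
      (p * ((i : ℕ) + 1)) = _
    rw [hh, mul_pow, sub_eq_add_neg, ← C_neg, add_pow, ← mul_assoc, Finset.mul_sum,
      finset_sum_coeff]
    have hterm : ∀ k, (X ^ ((j : ℕ) + 1) * (X ^ ε) ^ (d * r) *
        ((X ^ d) ^ k * C (-c) ^ (d * r - k) * (((d * r).choose k : ℕ) : F[X]))).coeff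
          (p * ((i : ℕ) + 1)) =
        if (j : ℕ) + 1 + ε * (d * r) + d * k = p * ((i : ℕ) + 1) then
          (-c) ^ (d * r - k) * (((d * r).choose k : ℕ) : F) else 0 := by
      intro k
      have e1 : (X ^ ((j : ℕ) + 1) * (X ^ ε) ^ (d * r) *
        ((X ^ d) ^ k * C (-c) ^ (d * r - k) * (((d * r).choose k : ℕ) : F[X]))) =
          C ((-c) ^ (d * r - k) * (((d * r).choose k : ℕ) : F)) *
            X ^ ((j : ℕ) + 1 + ε * (d * r) + d * k) := by
        rw [C_mul, C_pow, ← C_eq_natCast, pow_add, pow_add, ← pow_mul, ← pow_mul]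
        ring
      rw [e1, coeff_C_mul_X_pow]
      by_cases h : (j : ℕ) + 1 + ε * (d * r) + d * k = p * ((i : ℕ) + 1)
      · rw [if_pos h, if_pos h.symm]
      · rw [if_neg h, if_neg fun h' => h h'.symm]
    simp only [hterm]
    have hsol : ∀ k, (j : ℕ) + 1 + ε * (d * r) + d * k = p * ((i : ℕ) + 1) →
        (i : ℕ) = j ∧ k = r * (2 * ((i : ℕ) + 1) - ε) := by
      intro k hk
      have h1 : (d : ℤ) * (k + ε * r - 2 * r * ((i : ℕ) + 1)) = (i : ℕ) - (j : ℕ) := by
        have h2 : (((j : ℕ) + 1 + ε * (d * r) + d * k : ℕ) : ℤ) = ((p * ((i : ℕ) + 1) : ℕ) : ℤ) := by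
          rw [hk]
        rw [hpr] at h2
        push_cast at h2
        linarith
      have h3 : (k : ℤ) + ε * r - 2 * r * ((i : ℕ) + 1) = 0 := by
        by_contra hne
        have h4 : (d : ℤ) ≤ |((i : ℕ) : ℤ) - (j : ℕ)| := by
          rw [← h1, abs_mul, Nat.abs_cast]
          have := Int.one_le_abs hne
          nlinarith
        have h5 : |((i : ℕ) : ℤ) - (j : ℕ)| < d := by
          rw [abs_lt]
          constructor <;> omega
        omega
      rw [h3, mul_zero] at h1
      refine ⟨by omega, ?_⟩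
      have h6 : ε ≤ 2 * ((i : ℕ) + 1) := by omega
      have h7 : (k : ℤ) = ((r * (2 * ((i : ℕ) + 1) - ε) : ℕ) : ℤ) := by
        push_cast [Nat.cast_sub h6]
        linarith
      exact_mod_cast h7
    by_cases hij : i = j
    · subst hij
      rw [Matrix.diagonal_apply_eq, Finset.sum_eq_single (r * (2 * ((i : ℕ) + 1) - ε))]
      · rw [if_pos]
        have h6 : ε ≤ 2 * ((i : ℕ) + 1) := by omega
        have h7 : (((i : ℕ) + 1 + ε * (d * r) + d * (r * (2 * ((i : ℕ) + 1) - ε)) : ℕ) : ℤ) =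
            ((p * ((i : ℕ) + 1) : ℕ) : ℤ) := by
          rw [hpr]
          push_cast [Nat.cast_sub h6]
          ring
        exact_mod_cast h7
      · intro k _ hk
        exact if_neg fun h => hk (hsol k h).2
      · intro hk
        exfalso
        apply hk
        rw [Finset.mem_range]
        have h8 : 2 * ((i : ℕ) + 1) - ε ≤ d := by omega
        have := Nat.mul_le_mul_left r h8
        rw [mul_comm r d] at this
        omega
    · rw [Matrix.diagonal_apply_ne _ hij]
      exact Finset.sum_eq_zero fun k _ => if_neg fun h => hij (Fin.ext (hsol k h).1)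
  rw [key, Matrix.det_diagonal]
  refine Finset.prod_ne_zero_iff.2 fun i _ => mul_ne_zero (pow_ne_zero _ (neg_ne_zero.2 hc)) ?_
  rw [Ne, CharP.cast_eq_zero_iff F p]
  intro hdvd
  have hi := i.2
  have hle : r * (2 * ((i : ℕ) + 1) - ε) ≤ d * r := by
    have h8 : 2 * ((i : ℕ) + 1) - ε ≤ d := by omega
    have := Nat.mul_le_mul_left r h8
    rwa [mul_comm r d] at this
  have h1 : p ∣ (d * r).factorial := by
    rw [← Nat.choose_mul_factorial_mul_factorial hle, mul_assoc]
    exact Dvd.dvd.mul_right hdvd _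
  have h2 := hp0.dvd_factorial.1 h1
  have h3 : d * r < p := by
    rw [hpr]
    nlinarith [Nat.mul_pos hd hr0]
  omega

end Pool.Agent.NH36.Pen
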