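import Pool.Agent.R410.OR.Base2
import Pool.Agent.NH36.Pen.Kummer

/-!
# Curves of genus at most two and Kummer curves have simultaneous dense ordinary reduction
-/

set_option autoImplicit false
set_option linter.all false

open Polynomial

namespace Pool.Agent.NH36.Pen

open Pool.Agent.R410.OR (hw hw_det_map DO to_zmod two_ne Sq ell2 qc_sq)

/-- the branch points of `y² = x ^ d - c` or `y² = x (x ^ d - c)` -/
def IsKummer {κ : Type*} [Field κ] (R : Finset κ) : Prop :=
  ∃ (d ε : ℕ) (c : κ), 0 < d ∧ ε ≤ 1 ∧ c ≠ 0 ∧ ∏ a ∈ R, (X - C a) = X ^ ε * (X ^ d - C c)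

theorem IsKummer.card {κ : Type*} [Field κ] {R : Finset κ} {d ε : ℕ} {c : κ} (hd : 0 < d)
    (h : ∏ a ∈ R, (X - C a) = X ^ ε * (X ^ d - C c)) : R.card = d + ε := by
  have h1 := congrArg natDegree h
  rw [natDegree_prod_of_monic _ _ fun i _ => monic_X_sub_C i,
    Monic.natDegree_mul (monic_X_pow ε) (monic_X_pow_sub_C c hd.ne'), natDegree_X_pow,
    natDegree_X_pow_sub_C] at h1
  simp only [natDegree_X_sub_C, Finset.sum_const, smul_eq_mul, mul_one] at h1
  omega

theorem dvd_of_root {p N : ℕ} (hp : p.Prime) (hN : 0 < N) (z : ZMod p) (hz : z ^ N = 1)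
    (hz' : ∀ j, 0 < j → j < N → z ^ j ≠ 1) : N ∣ p - 1 := by
  have hpf : Fact p.Prime := ⟨hp⟩
  have ho : orderOf z = N := (orderOf_eq_iff hN).2 ⟨hz, fun m hm hm0 => hz' m hm0 hm⟩
  have hz0 : z ≠ 0 := by
    rintro rfl
    rw [zero_pow hN.ne'] at hz
    exact zero_ne_one hz
  have h2 : z ^ (p - 1) = 1 := ZMod.pow_card_sub_one_eq_one hz0
  have h3 := orderOf_dvd_of_pow_eq_one h2
  rwa [ho] at h3

theorem base3 {k : Type*} [Field k] [CharZero k] {ι : Type*} [Fintype ι] (S : ι → Finset k)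
    (h : ∀ i, (S i).card ≤ 6 ∨ IsKummer (S i)) : DO S := by
  classical
  intro A hA F hF c hc
  obtain ⟨sA, hsA⟩ := hA
  let L := AlgebraicClosure k
  have hL : CharZero L := charZero_of_injective_algebraMap (algebraMap k L).injective
  let g : k →+* L := algebraMap k L
  let U : Finset k := Finset.univ.biUnion S
  have hU : ∀ i, ∀ s ∈ S i, s ∈ U := fun i s hs => Finset.mem_biUnion.2 ⟨i, Finset.mem_univ _, hs⟩
  have hsqrt : ∀ x : L, ∃ y : L, y ^ 2 = x := fun x => IsAlgClosed.exists_pow_nat_eq x two_pos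
  choose sq hsq using hsqrt
  -- the data of the Kummer sets
  have hK : ∀ i, ∃ (d : ℕ) (ε : ℕ) (e : k), 0 < d ∧ ε ≤ 1 ∧ e ≠ 0 ∧ ((S i).card ≤ 6 ∨
      ∏ a ∈ S i, (X - C a) = X ^ ε * (X ^ d - C e)) := by
    intro i
    rcases h i with h1 | ⟨d, ε, e, h1, h2, h3, h4⟩
    · exact ⟨1, 0, 1, one_pos, zero_le_one, one_ne_zero, Or.inl h1⟩
    · exact ⟨d, ε, e, h1, h2, h3, Or.inr h4⟩
  choose d ε e hd hε he hde using hK
  let N : ℕ := 16 * ∏ i, (2 * d i)
  have hN : 0 < N := Nat.mul_pos (by norm_num) (Finset.prod_pos fun i _ =>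
    Nat.mul_pos two_pos (hd i))
  have hNL : NeZero (N : L) := ⟨by exact_mod_cast hN.ne'⟩
  obtain ⟨ζ, hζ⟩ := HasEnoughRootsOfUnity.exists_primitiveRoot L N
  let s : Finset L := sA.image g ∪ (U.image g ∪ ((U ×ˢ U).image (fun e => (g e.2 - g e.1)⁻¹) ∪
    ((U ×ˢ U).image (fun e => sq (g e.1 - g e.2)) ∪ ({(g (c : k))⁻¹, ζ} ∪
      ((Finset.range N).image (fun j => (ζ ^ j - 1)⁻¹) ∪
        (Finset.univ.image (fun i => g (e i)) ∪ Finset.univ.image fun i => (g (e i))⁻¹))))))
  obtain ⟨B, hB⟩ : ∃ B : Subalgebra ℤ L, B = Algebra.adjoin ℤ (s : Set L) := ⟨_, rfl⟩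
  obtain ⟨p, hp, hp4, ⟨χ⟩⟩ : ∃ p : ℕ, p.Prime ∧ p % 4 = 1 ∧ Nonempty (B →+* ZMod p) := by
    rw [hB]
    exact to_zmod s
  have hpf : Fact p.Prime := ⟨hp⟩
  have hsB : ∀ x ∈ s, x ∈ B := fun x hx => by
    rw [hB]
    exact Algebra.subset_adjoin (Finset.mem_coe.2 hx)
  have hAB : ∀ x ∈ A, g x ∈ B := by
    have h1 : A ≤ B.comap g.toIntAlgHom := by
      rw [← hsA]
      refine Algebra.adjoin_le fun x hx => ?_
      exact hsB _ (Finset.mem_union_left _ (Finset.mem_image_of_mem _ hx))
    exact fun x hx => h1 hx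
  have hUB : ∀ x ∈ U, g x ∈ B := fun x hx => hsB _ (Finset.mem_union_right _
    (Finset.mem_union_left _ (Finset.mem_image_of_mem _ hx)))
  have hIB : ∀ a ∈ U, ∀ b ∈ U, (g b - g a)⁻¹ ∈ B := fun a ha b hb =>
    hsB _ (Finset.mem_union_right _ (Finset.mem_union_right _
      (Finset.mem_union_left _ (Finset.mem_image.2 ⟨(a, b), Finset.mem_product.2 ⟨ha, hb⟩, rfl⟩))))
  have hQB : ∀ a ∈ U, ∀ b ∈ U, sq (g a - g b) ∈ B := fun a ha b hb =>
    hsB _ (Finset.mem_union_right _ (Finset.mem_union_right _ (Finset.mem_union_right _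
      (Finset.mem_union_left _ (Finset.mem_image.2 ⟨(a, b), Finset.mem_product.2 ⟨ha, hb⟩, rfl⟩)))))
  have hs5 : ∀ x, x ∈ ({(g (c : k))⁻¹, ζ} ∪
      ((Finset.range N).image (fun j => (ζ ^ j - 1)⁻¹) ∪
        (Finset.univ.image (fun i => g (e i)) ∪ Finset.univ.image fun i => (g (e i))⁻¹)) :
          Finset L) → x ∈ B := fun x hx =>
    hsB _ (Finset.mem_union_right _ (Finset.mem_union_right _
      (Finset.mem_union_right _ (Finset.mem_union_right _ hx))))
  have hcB : (g (c : k))⁻¹ ∈ B := hs5 _ (Finset.mem_union_left _ (by simp))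
  have hζB : ζ ∈ B := hs5 _ (Finset.mem_union_left _ (by simp))
  have hζB' : ∀ j < N, (ζ ^ j - 1)⁻¹ ∈ B := fun j hj => hs5 _ (Finset.mem_union_right _
    (Finset.mem_union_left _ (Finset.mem_image.2 ⟨j, Finset.mem_range.2 hj, rfl⟩)))
  have heB : ∀ i, g (e i) ∈ B := fun i => hs5 _ (Finset.mem_union_right _
    (Finset.mem_union_right _ (Finset.mem_union_left _ (Finset.mem_image.2
      ⟨i, Finset.mem_univ _, rfl⟩))))
  have heB' : ∀ i, (g (e i))⁻¹ ∈ B := fun i => hs5 _ (Finset.mem_union_right _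
    (Finset.mem_union_right _ (Finset.mem_union_right _ (Finset.mem_image.2
      ⟨i, Finset.mem_univ _, rfl⟩))))
  have hNp : N ∣ p - 1 := by
    refine dvd_of_root hp hN (χ ⟨ζ, hζB⟩) ?_ ?_
    · rw [← map_pow]
      have e1 : (⟨ζ, hζB⟩ : B) ^ N = 1 := Subtype.ext hζ.pow_eq_one
      rw [e1, map_one]
    · intro j hj0 hjN h1
      have hne : ζ ^ j - 1 ≠ 0 := sub_ne_zero.2 (hζ.pow_ne_one_of_pos_of_lt hj0.ne' hjN)
      have e1 : ((⟨ζ, hζB⟩ : B) ^ j - 1) * ⟨(ζ ^ j - 1)⁻¹, hζB' j hjN⟩ = 1 :=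
        Subtype.ext (mul_inv_cancel₀ hne)
      have e2 := congrArg χ e1
      rw [map_mul, map_sub, map_pow, map_one, h1, sub_self, zero_mul] at e2
      exact zero_ne_one e2
  have hp16 : p % 16 = 1 := by
    have h1 : 16 ∣ p - 1 := (Dvd.intro _ rfl).trans hNp
    have := hp.two_le
    omega
  have hpd : ∀ i, 2 * d i ∣ p - 1 := fun i =>
    ((Finset.dvd_prod_of_mem (fun i => 2 * d i) (Finset.mem_univ i)).trans
      (Dvd.intro_left _ rfl)).trans hNp
  let iA : A →+* B := (g.comp (algebraMap A k)).codRestrict B.toSubring (fun x => hAB x.1 x.2)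
  let φ : A →+* ZMod p := χ.comp iA
  have hφs : Function.Surjective φ := ZMod.ringHom_surjective φ
  have hM : (RingHom.ker φ).IsMaximal := RingHom.ker_isMaximal_of_surjective φ hφs
  refine ⟨p, RingHom.ker φ, hp, by omega, hM, ?_, ?_, fun i => ?_⟩
  · rw [RingHom.mem_ker, map_natCast, ZMod.natCast_self]
  · intro h0
    have hgc : g (c : k) ≠ 0 := by
      intro h
      apply hc
      apply Subtype.ext
      apply g.injective
      rw [h]
      exact (map_zero g).symm
    have h1 : (iA c) * ⟨(g (c : k))⁻¹, hcB⟩ = 1 :=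
      Subtype.ext (mul_inv_cancel₀ hgc)
    have h2 := congrArg χ h1
    rw [map_mul, map_one, show χ (iA c) = 0 from h0, zero_mul] at h2
    exact zero_ne_one h2
  · suffices hsuff : (hw p (((S i).card - 1) / 2) ((F i).map φ)).det ≠ 0 by
      rw [← hw_det_map] at hsuff ⊢
      intro h4
      apply hsuff
      exact Ideal.Quotient.eq_zero_iff_mem.1 h4
    let j : k → ZMod p := fun x => if h : g x ∈ B then χ ⟨g x, h⟩ else 0
    have hj : ∀ x (hx : g x ∈ B), j x = χ ⟨g x, hx⟩ := fun x hx => dif_pos hx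
    have hjne : ∀ a ∈ S i, ∀ b ∈ S i, a ≠ b → j b - j a ≠ 0 := by
      intro a ha b hb hne hab
      have haU := hU i a ha
      have hbU := hU i b hb
      rw [hj a (hUB a haU), hj b (hUB b hbU), ← map_sub] at hab
      have h1 : (⟨g b, hUB b hbU⟩ - ⟨g a, hUB a haU⟩ : B) * ⟨(g b - g a)⁻¹, hIB a haU b hbU⟩ = 1 :=
        Subtype.ext (mul_inv_cancel₀ (sub_ne_zero.2 fun h => hne (g.injective h.symm)))
      have h2 := congrArg χ h1
      rw [map_mul, hab, zero_mul, map_one] at h2
      exact zero_ne_one h2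
    have hinj : Set.InjOn j (S i) := by
      intro a ha b hb hab
      by_contra hne
      exact hjne a ha b hb hne (by rw [hab, sub_self])
    rcases hde i with h6 | hkum
    · have hSq : Sq ((S i).image j) := by
        intro x hx y hy hxy
        obtain ⟨a, ha, rfl⟩ := Finset.mem_image.1 hx
        obtain ⟨b, hb, rfl⟩ := Finset.mem_image.1 hy
        have hne : a ≠ b := fun h => hxy (by rw [h])
        have haU := hU i a ha
        have hbU := hU i b hb
        have h0 := hjne b hb a ha hne.symm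
        have h1 : j a - j b = (χ ⟨sq (g a - g b), hQB a haU b hbU⟩) ^ 2 := by
          rw [hj a (hUB a haU), hj b (hUB b hbU), ← map_sub, ← map_pow]
          congr 1
          exact Subtype.ext (hsq _).symm
        rw [h1] at h0 ⊢
        exact qc_sq (fun h => h0 (by rw [h]; ring))
      have h1 := ell2 hp16 hSq (by rw [Finset.card_image_of_injOn hinj]; exact h6)
      rw [Finset.card_image_of_injOn hinj,
        Finset.prod_image fun x hx y hy hxy => hinj hx hy hxy] at h1
      have h2 : (F i).map iA = ∏ x ∈ (S i).attach, (X - C (⟨g x.1, hUB _ (hU i x.1 x.2)⟩ : B)) := by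
        apply map_injective (algebraMap B L) Subtype.val_injective
        rw [Polynomial.map_map, Polynomial.map_prod]
        have e1 : (algebraMap B L).comp iA = g.comp (algebraMap A k) := rfl
        rw [e1, ← Polynomial.map_map, hF, ← Finset.prod_attach (S i) fun x => (X - C x : k[X]),
          Polynomial.map_prod]
        refine Finset.prod_congr rfl fun x _ => ?_
        rw [Polynomial.map_sub, Polynomial.map_X, Polynomial.map_C, Polynomial.map_sub,
          Polynomial.map_X, Polynomial.map_C]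
        rfl
      have h3 : (F i).map φ = ∏ x ∈ S i, (X - C (j x)) := by
        rw [show (F i).map φ = ((F i).map iA).map χ from (Polynomial.map_map iA χ (F i)).symm, h2,
          Polynomial.map_prod, ← Finset.prod_attach (S i) fun x => (X - C (j x) : (ZMod p)[X])]
        refine Finset.prod_congr rfl fun x _ => ?_
        rw [Polynomial.map_sub, Polynomial.map_X, Polynomial.map_C, hj x.1 (hUB _ (hU i x.1 x.2))]
      rw [h3]
      exact h1
    · have hcard := IsKummer.card (hd i) hkum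
      have h2 : (F i).map iA = X ^ ε i * (X ^ d i - C (⟨g (e i), heB i⟩ : B)) := by
        apply map_injective (algebraMap B L) Subtype.val_injective
        rw [Polynomial.map_map]
        have e1 : (algebraMap B L).comp iA = g.comp (algebraMap A k) := rfl
        rw [e1, ← Polynomial.map_map, hF, hkum]
        simp only [Polynomial.map_mul, Polynomial.map_pow, Polynomial.map_sub, Polynomial.map_X,
          Polynomial.map_C]
        rfl
      have h3 : (F i).map φ = X ^ ε i * (X ^ d i - C (χ ⟨g (e i), heB i⟩)) := by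
        rw [show (F i).map φ = ((F i).map iA).map χ from (Polynomial.map_map iA χ (F i)).symm, h2]
        simp only [Polynomial.map_mul, Polynomial.map_pow, Polynomial.map_sub, Polynomial.map_X,
          Polynomial.map_C]
      rw [h3, hcard]
      refine kummer_det (hd i) (hε i) ?_ (hpd i)
      intro h0
      have hge : g (e i) ≠ 0 := fun h => he i (g.injective (h.trans (map_zero g).symm))
      have e1 : (⟨g (e i), heB i⟩ : B) * ⟨(g (e i))⁻¹, heB' i⟩ = 1 :=
        Subtype.ext (mul_inv_cancel₀ hge)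
      have e2 := congrArg χ e1
      rw [map_mul, map_one, h0, zero_mul] at e2
      exact zero_ne_one e2

end Pool.Agent.NH36.Pen
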