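import Pool.Agent.R410.OR.Val2

/-!
# Counting roots in discs
-/

set_option autoImplicit false
set_option linter.all false

open Polynomial

namespace Pool.Agent.NH36.Pen

open Pool.Agent.R410.OR (red red_of inn mult comp red_eq_iff)

section
variable {K : Type*} [Field K] (O : ValuationSubring K)

/-- the roots of odd multiplicity -/
noncomputable def oddRoots {κ : Type*} [Field κ] (Q : κ[X]) : Finset κ :=
  open Classical in Q.roots.toFinset.filter fun x => Odd (Q.rootMultiplicity x)

theorem mem_oddRoots {κ : Type*} [Field κ] {Q : κ[X]} {x : κ} :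
    x ∈ oddRoots Q ↔ Odd (Q.rootMultiplicity x) := by
  classical
  unfold oddRoots
  rw [Finset.mem_filter, Multiset.mem_toFinset]
  constructor
  · exact fun h => h.2
  · intro h
    refine ⟨?_, h⟩
    rw [← Multiset.count_pos, count_roots]
    exact h.pos

open Classical in
/-- the number of the elements of `S` with a given residue is the multiplicity of a root of the
reduction -/
theorem cnt (S : Finset K) (z : K → K) (P : O[X]) (c : K)
    (hP : P.map (algebraMap O K) = C c * ∏ r ∈ S, (X - C (z r)))
    (hP0 : P.map (IsLocalRing.residue O) ≠ 0) (x : IsLocalRing.ResidueField O) :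
    (S.filter fun r => z r ∈ O ∧ red O (z r) = x).card =
      (P.map (IsLocalRing.residue O)).rootMultiplicity x := by
  let zO : K → O := fun r => if h : z r ∈ O then ⟨z r, h⟩ else 0
  let wO : K → O := fun r => if h : (z r)⁻¹ ∈ O then ⟨(z r)⁻¹, h⟩ else 0
  let I : Finset K := S.filter fun r => z r ∈ O
  let J : Finset K := S.filter fun r => ¬ z r ∈ O
  have hzO : ∀ r ∈ I, ((zO r : O) : K) = z r := by
    intro r hr
    have h := (Finset.mem_filter.1 hr).2
    change ((if h : z r ∈ O then ⟨z r, h⟩ else 0 : O) : K) = z r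
    rw [dif_pos h]
  have hwO : ∀ r ∈ J, ((wO r : O) : K) = (z r)⁻¹ ∧ IsLocalRing.residue O (wO r) = 0 := by
    intro r hr
    have h := (Finset.mem_filter.1 hr).2
    have h1 : (z r)⁻¹ ∈ O := (O.mem_or_inv_mem _).resolve_left h
    have h2 : wO r = ⟨(z r)⁻¹, h1⟩ := dif_pos h1
    refine ⟨by rw [h2], ?_⟩
    rw [h2, IsLocalRing.residue_eq_zero_iff, ValuationSubring.valuation_lt_one_iff]
    change O.valuation (z r)⁻¹ < 1
    rw [map_inv₀]
    apply inv_lt_one_of_one_lt₀
    exact not_le.1 fun h' => h ((O.valuation_le_one_iff _).1 h')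
  have hJ0 : ∀ r ∈ J, z r ≠ 0 := by
    intro r hr h0
    apply (Finset.mem_filter.1 hr).2
    rw [h0]
    exact zero_mem O
  let H : O[X] := (∏ r ∈ I, (X - C (zO r))) * ∏ r ∈ J, (1 - C (wO r) * X)
  have hH1 : H.map (algebraMap O K) = (∏ r ∈ I, (X - C (z r))) *
      ∏ r ∈ J, (1 - C (z r)⁻¹ * X) := by
    change ((∏ r ∈ I, (X - C (zO r))) * ∏ r ∈ J, (1 - C (wO r) * X)).map _ = _
    rw [Polynomial.map_mul, Polynomial.map_prod, Polynomial.map_prod]
    congr 1
    · refine Finset.prod_congr rfl fun r hr => ?_
      rw [Polynomial.map_sub, Polynomial.map_X, Polynomial.map_C]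
      congr 2
      exact hzO r hr
    · refine Finset.prod_congr rfl fun r hr => ?_
      rw [Polynomial.map_sub, Polynomial.map_one, Polynomial.map_mul, Polynomial.map_X,
        Polynomial.map_C]
      congr 3
      exact (hwO r hr).1
  have hH2 : H.map (IsLocalRing.residue O) = ∏ r ∈ I, (X - C (red O (z r))) := by
    change ((∏ r ∈ I, (X - C (zO r))) * ∏ r ∈ J, (1 - C (wO r) * X)).map _ = _
    rw [Polynomial.map_mul, Polynomial.map_prod, Polynomial.map_prod]
    have e1 : ∏ r ∈ J, (1 - C (wO r) * X : O[X]).map (IsLocalRing.residue O) = 1 := by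
      refine Finset.prod_eq_one fun r hr => ?_
      rw [Polynomial.map_sub, Polynomial.map_one, Polynomial.map_mul, Polynomial.map_C,
        (hwO r hr).2, C_0, zero_mul, sub_zero]
    rw [e1, mul_one]
    refine Finset.prod_congr rfl fun r hr => ?_
    rw [Polynomial.map_sub, Polynomial.map_X, Polynomial.map_C]
    congr 2
    have h := (Finset.mem_filter.1 hr).2
    rw [red_of O h]
    congr 1
    exact Subtype.ext (hzO r hr)
  have hmonic : (H.map (IsLocalRing.residue O)).Monic := by
    rw [hH2]
    exact monic_prod_of_monic _ _ fun r _ => monic_X_sub_C _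
  let c' : K := c * ∏ r ∈ J, (- z r)
  have hPH : P.map (algebraMap O K) = C c' * H.map (algebraMap O K) := by
    rw [hP, hH1]
    change _ = C (c * ∏ r ∈ J, (- z r)) * _
    rw [← Finset.prod_filter_mul_prod_filter_not S (fun r => z r ∈ O)]
    change C c * ((∏ r ∈ I, (X - C (z r))) * ∏ r ∈ J, (X - C (z r))) = _
    have e1 : ∏ r ∈ J, (X - C (z r)) = C (∏ r ∈ J, (- z r)) * ∏ r ∈ J, (1 - C (z r)⁻¹ * X) := by
      rw [map_prod, ← Finset.prod_mul_distrib]
      refine Finset.prod_congr rfl fun r hr => ?_
      rw [mul_sub, mul_one, ← mul_assoc, ← C_mul, neg_mul, mul_inv_cancel₀ (hJ0 r hr), C_neg, C_neg,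
        C_1]
      ring
    rw [e1, C_mul]
    ring
  -- `c'` is a unit
  set m := (H.map (IsLocalRing.residue O)).natDegree with hm
  have hu : IsUnit (H.coeff m) := by
    have h1 : IsLocalRing.residue O (H.coeff m) = 1 := by
      rw [← coeff_map]
      exact hmonic.coeff_natDegree
    have h2 : IsLocalRing.residue O (H.coeff m) ≠ 0 := by
      rw [h1]
      exact one_ne_zero
    exact (IsLocalRing.residue_ne_zero_iff_isUnit _).1 h2
  obtain ⟨u, hu⟩ := hu
  have hc' : c' = algebraMap O K (P.coeff m * (u⁻¹ : Oˣ)) := by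
    have h1 : algebraMap O K (P.coeff m) = c' * algebraMap O K (H.coeff m) := by
      rw [← coeff_map, hPH, coeff_C_mul, coeff_map]
    rw [map_mul, h1, ← hu, mul_assoc, ← map_mul, Units.mul_inv, map_one, mul_one]
  have hPH' : P = C (P.coeff m * (u⁻¹ : Oˣ)) * H := by
    apply map_injective (algebraMap O K) Subtype.val_injective
    have e1 : (C (P.coeff m * (u⁻¹ : Oˣ)) * H).map (algebraMap O K) =
        C (algebraMap O K (P.coeff m * (u⁻¹ : Oˣ))) * H.map (algebraMap O K) := by
      rw [Polynomial.map_mul, Polynomial.map_C]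
    rw [hPH, hc', e1]
  set c'' : O := P.coeff m * (u⁻¹ : Oˣ) with hc''
  have hres : IsLocalRing.residue O c'' ≠ 0 := by
    intro h0
    apply hP0
    rw [hPH', Polynomial.map_mul, Polynomial.map_C, h0, C_0, zero_mul]
  rw [hPH', Polynomial.map_mul, Polynomial.map_C, ← count_roots, roots_C_mul _ hres, hH2]
  have h3 : ∏ r ∈ I, (X - C (red O (z r))) =
      ((I.val.map fun r => red O (z r)).map fun a => X - C a).prod := by
    rw [Multiset.map_map]
    rfl
  rw [h3, roots_multiset_prod_X_sub_C, Multiset.count_map]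
  have h4 : S.filter (fun r => z r ∈ O ∧ red O (z r) = x) =
      I.filter fun r => x = red O (z r) := by
    rw [Finset.filter_filter]
    refine Finset.filter_congr fun r _ => ?_
    constructor
    · exact fun h => ⟨h.1, h.2.symm⟩
    · exact fun h => ⟨h.1, h.2.symm⟩
  rw [h4]
  rfl

/-- the component of the disc -/
theorem comp_eq (S : Finset K) {A B : K} (hB : B ≠ 0) (P : O[X]) (c : K)
    (hP : P.map (algebraMap O K) = C c * ∏ r ∈ S, (X - C ((r - A) / B)))
    (hP0 : P.map (IsLocalRing.residue O) ≠ 0) {a b : K} (ha : (a - A) / B ∈ O)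
    (hb : (b - A) / B ∈ O) (hne : red O ((a - A) / B) ≠ red O ((b - A) / B)) :
    ∃ γ δ : IsLocalRing.ResidueField O, γ ≠ 0 ∧
      (open Classical in Pool.Agent.R410.OR.comp O a b S =
        (oddRoots (P.map (IsLocalRing.residue O))).image fun x => γ * x + δ) := by
  classical
  set α := (a - A) / B with hα
  set β := (b - A) / B with hβ
  have hsub : red O (β - α) = red O β - red O α := by
    rw [red_of O (sub_mem hb ha), red_of O hb, red_of O ha, ← map_sub]
    rfl
  have hγ : red O β - red O α ≠ 0 := sub_ne_zero.2 hne.symm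
  have hβα : β - α ≠ 0 := by
    intro h0
    apply hne
    rw [sub_eq_zero.1 h0]
  have hinv : (β - α)⁻¹ ∈ O := by
    rw [← O.valuation_le_one_iff, map_inv₀]
    have h1 : O.valuation (β - α) = 1 := by
      refine le_antisymm ((O.valuation_le_one_iff _).2 (sub_mem hb ha)) (not_lt.1 fun h => ?_)
      apply hγ
      rw [← hsub, red_of O (sub_mem hb ha), IsLocalRing.residue_eq_zero_iff,
        ValuationSubring.valuation_lt_one_iff]
      exact h
    rw [h1, inv_one]
  have hred_mul : ∀ x y : K, x ∈ O → y ∈ O → red O (x * y) = red O x * red O y := by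
    intro x y hx hy
    rw [red_of O (mul_mem hx hy), red_of O hx, red_of O hy, ← map_mul]
    rfl
  have hred_sub : ∀ x y : K, x ∈ O → y ∈ O → red O (x - y) = red O x - red O y := by
    intro x y hx hy
    rw [red_of O (sub_mem hx hy), red_of O hx, red_of O hy, ← map_sub]
    rfl
  have hquot : ∀ r : K, (r - a) / (b - a) = ((r - A) / B - α) / (β - α) := by
    intro r
    have hba : b - a ≠ 0 := by
      intro h0
      apply hβα
      rw [hβ, hα, ← sub_div]
      rw [show b - A - (a - A) = b - a by ring, h0, zero_div]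
    have e1 : (r - A) / B - α = (r - a) / B := by rw [hα, ← sub_div]; ring
    have e2 : β - α = (b - a) / B := by rw [hβ, hα, ← sub_div]; ring
    rw [e1, e2, div_div_div_cancel_right₀ hB]
  have hmem : ∀ r : K, (r - a) / (b - a) ∈ O ↔ (r - A) / B ∈ O := by
    intro r
    rw [hquot]
    constructor
    · intro h
      have h1 := add_mem (mul_mem h (sub_mem hb ha)) ha
      rwa [div_mul_cancel₀ _ hβα, sub_add_cancel] at h1
    · intro h
      rw [div_eq_mul_inv]
      exact mul_mem (sub_mem h ha) hinv
  have hredq : ∀ r : K, (r - A) / B ∈ O → ∀ x, (red O ((r - a) / (b - a)) = x ↔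
      red O ((r - A) / B) = red O α + (red O β - red O α) * x) := by
    intro r hr x
    have h1 : red O ((r - A) / B) - red O α =
        red O ((r - a) / (b - a)) * (red O β - red O α) := by
      rw [← hred_sub _ _ hr ha, ← hsub, ← hred_mul _ _ ((hmem r).2 hr) (sub_mem hb ha), hquot,
        div_mul_cancel₀ _ hβα]
    constructor
    · intro h
      rw [h] at h1
      linear_combination h1
    · intro h
      rw [h] at h1
      have h2 : (red O β - red O α) * (x - red O ((r - a) / (b - a))) = 0 := by
        linear_combination h1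
      rcases mul_eq_zero.1 h2 with h3 | h3
      · exact absurd h3 hγ
      · exact (sub_eq_zero.1 h3).symm
  have hmult : ∀ x, mult O a b S x = (P.map (IsLocalRing.residue O)).rootMultiplicity
      (red O α + (red O β - red O α) * x) := by
    intro x
    rw [← cnt O S (fun r => (r - A) / B) P c hP hP0]
    unfold mult inn
    rw [Finset.filter_filter]
    congr 1
    refine Finset.filter_congr fun r _ => ?_
    constructor
    · rintro ⟨h1, h2⟩
      have h3 := (hmem r).1 h1
      exact ⟨h3, (hredq r h3 x).1 h2⟩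
    · rintro ⟨h1, h2⟩
      exact ⟨(hmem r).2 h1, (hredq r h1 x).2 h2⟩
  refine ⟨(red O β - red O α)⁻¹, -(red O α * (red O β - red O α)⁻¹), inv_ne_zero hγ, ?_⟩
  ext x
  unfold Pool.Agent.R410.OR.comp
  rw [Finset.mem_filter, Finset.mem_image, Finset.mem_image]
  constructor
  · rintro ⟨-, h⟩
    rw [hmult] at h
    refine ⟨_, mem_oddRoots.2 h, ?_⟩
    field_simp
    ring
  · rintro ⟨y, hy, rfl⟩
    rw [mem_oddRoots] at hy
    have h1 : red O α + (red O β - red O α) *
        ((red O β - red O α)⁻¹ * y + -(red O α * (red O β - red O α)⁻¹)) = y := by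
      field_simp
      ring
    have h2 : Odd (mult O a b S ((red O β - red O α)⁻¹ * y +
        -(red O α * (red O β - red O α)⁻¹))) := by
      rw [hmult, h1]
      exact hy
    refine ⟨?_, h2⟩
    obtain ⟨r, hr⟩ := Finset.card_pos.1 h2.pos
    obtain ⟨h3, h4⟩ := Finset.mem_filter.1 hr
    exact ⟨r, h3, h4⟩

end

end Pool.Agent.NH36.Pen
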