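import Pool.Agent.NH36.Pen.Main
import Pool.Agent.R410.OR.Tr2

/-!
# Dense ordinary reduction of pencils of hyperelliptic curves
-/

set_option autoImplicit false
set_option linter.all false

open Polynomial

universe u v w

namespace Pool.Agent.NH36.Pen

open Pool.Agent.R410.OR (red red_of DO transfer dominate hw hw_det_map)

/-- simultaneous dense ordinary reduction of pencils over an algebraically closed field -/
theorem pencil_DO {k₁ : Type w} {K : Type u} [Field k₁] [CharZero k₁] [IsAlgClosed k₁] [Field K]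
    [CharZero K] [IsAlgClosed K] (j : k₁ →+* K) (t : K) (ht0 : t ≠ 0)
    (ht : ∀ P : k₁[X], P.eval₂ j t⁻¹ = 0 → P = 0) {ι : Type v} [Fintype ι] (h₀ h₁ : ι → k₁[X])
    (hh₁ : ∀ i, h₁ i ≠ 0) (hodd : ∀ i, (oddRoots (h₁ i)).card ≤ 6) (S : ι → Finset K) (l : ι → K)
    (hl : ∀ i, l i ≠ 0)
    (hS : ∀ i, (h₀ i).map j + C t * (h₁ i).map j = C (l i) * ∏ r ∈ S i, (X - C r)) : DO S := by
  classical
  -- the valuation
  let θ : k₁[X] →+* K := eval₂RingHom j t⁻¹
  have hker : RingHom.ker θ ≤ RingHom.ker (constantCoeff : k₁[X] →+* k₁) := by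
    intro P hP
    rw [ht P hP]
    exact Ideal.zero_mem _
  have hprime : (RingHom.ker (constantCoeff : k₁[X] →+* k₁)).IsPrime := RingHom.ker_isPrime _
  obtain ⟨O, hO, hv⟩ := dominate θ (RingHom.ker (constantCoeff : k₁[X] →+* k₁)) hker
  have hθX : θ X = t⁻¹ := eval₂_X _ _
  have hθC : ∀ x, θ (C x) = j x := fun x => eval₂_C _ _
  have htv : O.valuation t⁻¹ < 1 := by
    rw [← hθX, hv, RingHom.mem_ker, constantCoeff_apply, coeff_X_zero]
  let jO : k₁ →+* O := j.codRestrict O.toSubring fun x => hθC x ▸ hO (C x)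
  have hj : (algebraMap O K).comp jO = j := RingHom.ext fun x => rfl
  let jκ : k₁ →+* IsLocalRing.ResidueField O := (IsLocalRing.residue O).comp jO
  have hchar : CharZero (IsLocalRing.ResidueField O) :=
    charZero_of_injective_ringHom jκ.injective
  have hp : ∀ (i : ι) (a b : K), ∃ R : Finset (IsLocalRing.ResidueField O),
      (R.card ≤ 6 ∨ IsKummer R) ∧ (a ∈ S i → b ∈ S i → a ≠ b →
        ∃ γ δ : IsLocalRing.ResidueField O, γ ≠ 0 ∧
          Pool.Agent.R410.OR.comp O a b (S i) = R.image fun x => γ * x + δ) := by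
    intro i a b
    by_cases h : a ∈ S i ∧ b ∈ S i ∧ a ≠ b
    · obtain ⟨R, h1, h2⟩ := piece O jO t ht0 htv (h₀ i) (h₁ i) (hh₁ i) (S i) (l i) (hl i)
        (by rw [hj]; exact hS i) (hodd i) h.1 h.2.1 h.2.2
      exact ⟨R, h1, fun _ _ _ => h2⟩
    · exact ⟨∅, Or.inl (by simp), fun h1 h2 h3 => absurd ⟨h1, h2, h3⟩ h⟩
  choose R hR1 hR2 using hp
  refine transfer O S (J := Σ i : ι, (S i) × (S i)) (fun x => R x.1 x.2.1 x.2.2) ?_
    (base3 _ fun x => hR1 _ _ _)
  intro i a ha b hb hab
  obtain ⟨γ, δ, h1, h2⟩ := hR2 i a b ha hb hab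
  refine Or.inr ⟨⟨i, ⟨a, ha⟩, ⟨b, hb⟩⟩, γ, δ, h1, ?_⟩
  convert h2

theorem hw_C_mul {R : Type*} [CommRing R] (p g : ℕ) (a : R) (f : R[X]) :
    hw p g (C a * f) = a ^ ((p - 1) / 2) • hw p g f := by
  ext i j
  change (X ^ ((j : ℕ) + 1) * (C a * f) ^ ((p - 1) / 2)).coeff (p * ((i : ℕ) + 1)) =
    a ^ ((p - 1) / 2) * (X ^ ((j : ℕ) + 1) * f ^ ((p - 1) / 2)).coeff (p * ((i : ℕ) + 1))
  rw [mul_pow, ← C_pow, mul_left_comm, coeff_C_mul]

theorem oddRoots_card {k₁ : Type*} [Field k₁] (q r : k₁[X]) (h : q ^ 2 * r ≠ 0) :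
    (oddRoots (q ^ 2 * r)).card ≤ r.natDegree := by
  classical
  have hr : r ≠ 0 := right_ne_zero_of_mul h
  have hsub : oddRoots (q ^ 2 * r) ⊆ r.roots.toFinset := by
    intro x hx
    have hq : q ^ 2 ≠ 0 := left_ne_zero_of_mul h
    rw [mem_oddRoots, rootMultiplicity_mul h, sq,
      rootMultiplicity_mul (by rw [← sq]; exact hq)] at hx
    rw [Multiset.mem_toFinset, ← Multiset.count_pos, count_roots]
    by_contra h0
    have h1 : r.rootMultiplicity x = 0 := by omega
    rw [h1, add_zero] at hx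
    exact (Nat.not_odd_iff_even.2 ⟨_, rfl⟩) hx
  exact (Finset.card_le_card hsub).trans ((Multiset.toFinset_card_le _).trans r.card_roots')

theorem main {k₀ : Type w} {k : Type u} [Field k₀] [Field k] [CharZero k] [Algebra k₀ k] (t : k)
    (ht : Transcendental k₀ t) {ι : Type v} [Finite ι] (h q r : ι → k₀[X])
    (hqr : ∀ i, q i * r i ≠ 0) (hr : ∀ i, (r i).natDegree ≤ 6) (f : ι → k[X])
    (hf : ∀ i, f i = (h i).map (algebraMap k₀ k) +
      C t * ((q i) ^ 2 * r i).map (algebraMap k₀ k)) (hsq : ∀ i, Squarefree (f i))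
    (A : Subalgebra ℤ k) (hA : A.FG) (F : ι → A[X])
    (hF : ∀ i, (F i).map (algebraMap A k) = f i) (c : A) (hc : c ≠ 0) :
    ∃ (p : ℕ) (M : Ideal A), p.Prime ∧ p ≠ 2 ∧ M.IsMaximal ∧ (p : A) ∈ M ∧ c ∉ M ∧
      ∀ i, (hw p (((f i).natDegree - 1) / 2) ((F i).map (Ideal.Quotient.mk M))).det ≠ 0 := by
  classical
  have hfin := Fintype.ofFinite ι
  let K := AlgebraicClosure k
  have hK : CharZero K := charZero_of_injective_algebraMap (algebraMap k K).injective
  let g : k →+* K := algebraMap k K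
  let k₁ := algebraicClosure k₀ K
  have hk₁ : IsAlgClosed k₁ := (algebraicClosure.isAlgClosure k₀ K).1
  let j : k₁ →+* K := algebraMap k₁ K
  have hk₁0 : CharZero k₁ := by
    refine ⟨fun m n hmn => ?_⟩
    have h1 := congrArg j hmn
    rw [map_natCast, map_natCast] at h1
    exact_mod_cast h1
  let ι₀ : k₀ →+* k₁ := algebraMap k₀ k₁
  have hcomp : j.comp ι₀ = g.comp (algebraMap k₀ k) := by
    ext x
    exact ((IsScalarTower.algebraMap_apply k₀ k₁ K x).symm).trans
      (IsScalarTower.algebraMap_apply k₀ k K x)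
  have ht' : Transcendental k₀ (g t) := by
    intro h
    exact ht ((isAlgebraic_algebraMap_iff g.injective).1 h)
  have htk : Transcendental k₁ (g t) := ht'.algebraicClosure
  have ht0 : g t ≠ 0 := by
    intro h0
    apply htk
    rw [h0]
    exact isAlgebraic_zero
  have htinv : ∀ P : k₁[X], P.eval₂ j (g t)⁻¹ = 0 → P = 0 := by
    intro P hP
    by_contra hP0
    have h1 : IsAlgebraic k₁ (g t)⁻¹ := ⟨P, hP0, hP⟩
    have h2 := h1.inv
    rw [inv_inv] at h2
    exact htk h2
  -- the roots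
  have hf0 : ∀ i, f i ≠ 0 := fun i => (hsq i).ne_zero
  let S : ι → Finset K := fun i => ((f i).map g).roots.toFinset
  have hsep : ∀ i, ((f i).map g).Separable := fun i =>
    ((PerfectField.separable_iff_squarefree).2 (hsq i)).map
  have hprod : ∀ i, (f i).map g = C (g (f i).leadingCoeff) * ∏ x ∈ S i, (X - C x) := by
    intro i
    have h1 := (IsAlgClosed.splits ((f i).map g)).eq_prod_roots
    rw [leadingCoeff_map] at h1
    have h2 : (((f i).map g).roots.map fun a => X - C a).prod = ∏ x ∈ S i, (X - C x) := by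
      rw [Finset.prod_multiset_map_count]
      refine Finset.prod_congr rfl fun x hx => ?_
      rw [Multiset.count_eq_one_of_mem (nodup_roots (hsep i)) (Multiset.mem_toFinset.1 hx),
        pow_one]
    rw [← h2]
    exact h1
  have hlc : ∀ i, g (f i).leadingCoeff ≠ 0 := fun i =>
    (_root_.map_ne_zero g).2 (leadingCoeff_ne_zero.2 (hf0 i))
  have hcard : ∀ i, (S i).card = (f i).natDegree := by
    intro i
    have h1 := congrArg natDegree (hprod i)
    rw [natDegree_map, natDegree_C_mul (hlc i),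
      natDegree_prod_of_monic _ _ fun i _ => monic_X_sub_C i] at h1
    simp only [natDegree_X_sub_C, Finset.sum_const, smul_eq_mul, mul_one] at h1
    exact h1.symm
  have hDO : DO S := by
    refine pencil_DO j (g t) ht0 htinv (fun i => (h i).map ι₀) (fun i => ((q i) ^ 2 * r i).map ι₀)
      ?_ ?_ S (fun i => g (f i).leadingCoeff) hlc ?_
    · intro i
      refine (Polynomial.map_ne_zero_iff ι₀.injective).2 ?_
      exact mul_ne_zero (pow_ne_zero _ (left_ne_zero_of_mul (hqr i))) (right_ne_zero_of_mul (hqr i))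
    · intro i
      have h0 : ((q i).map ι₀) ^ 2 * (r i).map ι₀ ≠ 0 := by
        rw [← Polynomial.map_pow, ← Polynomial.map_mul]
        refine (Polynomial.map_ne_zero_iff ι₀.injective).2 ?_
        exact mul_ne_zero (pow_ne_zero _ (left_ne_zero_of_mul (hqr i)))
          (right_ne_zero_of_mul (hqr i))
      have h1 := oddRoots_card ((q i).map ι₀) ((r i).map ι₀) h0
      rw [Polynomial.map_mul, Polynomial.map_pow]
      refine h1.trans ?_
      rw [natDegree_map]
      exact hr i
    · intro i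
      rw [← hprod i, hf i]
      simp only [Polynomial.map_add, Polynomial.map_mul, Polynomial.map_pow, Polynomial.map_C,
        Polynomial.map_map, hcomp]
  -- the model
  have hFdeg : ∀ i, algebraMap A k (F i).leadingCoeff = (f i).leadingCoeff := by
    intro i
    rw [← hF i, leadingCoeff_map_of_injective Subtype.val_injective]
  let E : Finset K := Finset.univ.image fun i => (g (f i).leadingCoeff)⁻¹
  let B : Subalgebra ℤ K := A.map g.toIntAlgHom ⊔ Algebra.adjoin ℤ (E : Set K)
  have hB : B.FG := (hA.map _).sup (Subalgebra.fg_def.2 ⟨E, E.finite_toSet, rfl⟩)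
  have hAB : ∀ x : A, g (x : k) ∈ B := fun x =>
    (le_sup_left : A.map g.toIntAlgHom ≤ B) ⟨x, x.2, rfl⟩
  have hEB : ∀ i, (g (f i).leadingCoeff)⁻¹ ∈ B := fun i =>
    (le_sup_right : Algebra.adjoin ℤ (E : Set K) ≤ B) (Algebra.subset_adjoin
      (Finset.mem_coe.2 (Finset.mem_image.2 ⟨i, Finset.mem_univ _, rfl⟩)))
  let iA : A →+* B := (g.comp (algebraMap A k)).codRestrict B.toSubring fun x => hAB x
  have hiA : (algebraMap B K).comp iA = g.comp (algebraMap A k) := RingHom.ext fun x => rfl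
  have hiAi : Function.Injective iA := fun x y hxy => by
    apply Subtype.val_injective
    exact g.injective (congrArg Subtype.val hxy)
  let lB : ι → B := fun i => ⟨(g (f i).leadingCoeff)⁻¹, hEB i⟩
  have hlB : ∀ i, iA (F i).leadingCoeff * lB i = 1 := by
    intro i
    apply Subtype.ext
    change g (algebraMap A k (F i).leadingCoeff) * (g (f i).leadingCoeff)⁻¹ = 1
    rw [hFdeg i]
    exact mul_inv_cancel₀ (hlc i)
  let G : ι → B[X] := fun i => C (lB i) * (F i).map iA
  have hG : ∀ i, (G i).map (algebraMap B K) = ∏ x ∈ S i, (X - C x) := by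
    intro i
    change (C (lB i) * (F i).map iA).map _ = _
    rw [Polynomial.map_mul, Polynomial.map_C, Polynomial.map_map, hiA, ← Polynomial.map_map, hF i,
      hprod i, ← mul_assoc, ← C_mul]
    change C ((g (f i).leadingCoeff)⁻¹ * g (f i).leadingCoeff) * _ = _
    rw [inv_mul_cancel₀ (hlc i), C_1, one_mul]
  have hcB : iA c ≠ 0 := by rwa [map_ne_zero_iff _ hiAi]
  obtain ⟨p, M', hp, hp2, hM', hpM', hcM', hdet⟩ := hDO B hB G hG (iA c) hcB
  have hM'p : M'.IsPrime := hM'.isPrime
  letI : Field (B ⧸ M') := Ideal.Quotient.field M'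
  let M0 : Ideal A := M'.comap iA
  have hM0 : M0.IsPrime := Ideal.comap_isPrime iA M'
  have hpM0 : (p : A) ∈ M0 := by
    change iA (p : A) ∈ M'
    rw [map_natCast]
    exact hpM'
  have hdM0 : ∀ i, (hw p (((f i).natDegree - 1) / 2) (F i)).det ∉ M0 := by
    intro i h0
    have h1 : Ideal.Quotient.mk M' (iA (hw p (((f i).natDegree - 1) / 2) (F i)).det) = 0 :=
      Ideal.Quotient.eq_zero_iff_mem.2 h0
    rw [hw_det_map, hw_det_map] at h1
    have h2 := hdet i
    rw [hcard i] at h2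
    have h3 : (G i).map (Ideal.Quotient.mk M') =
        C (Ideal.Quotient.mk M' (lB i)) * ((F i).map iA).map (Ideal.Quotient.mk M') := by
      change (C (lB i) * (F i).map iA).map _ = _
      rw [Polynomial.map_mul, Polynomial.map_C]
    rw [h3, hw_C_mul, Matrix.det_smul, h1, mul_zero] at h2
    exact h2 rfl
  have hcM0 : c ∉ M0 := hcM'
  have hfA : Algebra.FiniteType ℤ A := (Subalgebra.fg_iff_finiteType _).mp hA
  have hJ : IsJacobsonRing A := by
    have := Pool.Agent.Y162.HW.jac_int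
    exact isJacobsonRing_of_finiteType (A := ℤ)
  have hprod' : c * ∏ i, (hw p (((f i).natDegree - 1) / 2) (F i)).det ∉ M0 := by
    intro hm
    rcases hM0.mem_or_mem hm with h1 | h1
    · exact hcM0 h1
    · obtain ⟨i, -, hi⟩ := (hM0.prod_mem_iff).1 h1
      exact hdM0 i hi
  have hjac : M0.jacobson = M0 := isJacobsonRing_iff_prime_eq.mp hJ M0 hM0
  rw [← hjac, Ideal.jacobson, Submodule.mem_sInf] at hprod'
  push Not at hprod'
  obtain ⟨M, ⟨hM0M, hM⟩, hMa⟩ := hprod'
  refine ⟨p, M, hp, hp2, hM, hM0M hpM0, fun h1 => hMa (Ideal.mul_mem_right _ M h1), fun i => ?_⟩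
  rw [← hw_det_map]
  intro h1
  refine hMa (Ideal.mul_mem_left M _ ?_)
  exact Ideal.mem_of_dvd M (Finset.dvd_prod_of_mem
    (fun i => (hw p (((f i).natDegree - 1) / 2) (F i)).det) (Finset.mem_univ i))
    (Ideal.Quotient.eq_zero_iff_mem.1 h1)

end Pool.Agent.NH36.Pen
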