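import Pool.Agent.NH36.Pen.Piece

/-!
# The limit of a pencil: all components are of genus at most two or Kummer curves
-/

set_option autoImplicit false
set_option linter.all false

open Polynomial

namespace Pool.Agent.NH36.Pen

open Pool.Agent.R410.OR (red red_of inn mult red_eq_iff DO transfer)

section
variable {k₁ K : Type*} [Field k₁] [CharZero k₁] [IsAlgClosed k₁] [Field K] [IsAlgClosed K]
  (O : ValuationSubring K) (jO : k₁ →+* O)

/-- the composition of a product of linear factors with a linear polynomial -/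
theorem prod_comp_lin (S : Finset K) (l A B : K) (hB : B ≠ 0) :
    (C l * ∏ r ∈ S, (X - C r)).comp (C A + C B * X) =
      C (l * B ^ S.card) * ∏ r ∈ S, (X - C ((r - A) / B)) := by
  rw [mul_comp, C_comp, prod_comp, C_mul, C_pow, ← Finset.prod_const, mul_assoc,
    ← Finset.prod_mul_distrib]
  congr 1
  refine Finset.prod_congr rfl fun r _ => ?_
  rw [sub_comp, X_comp, C_comp, mul_sub, ← C_mul, mul_div_cancel₀ _ hB, C_sub]
  ring

theorem rm_le_one (S : Finset K) (l : K) (hl : l ≠ 0) (x : K) :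
    (C l * ∏ r ∈ S, (X - C r)).rootMultiplicity x ≤ 1 := by
  classical
  rw [← count_roots, roots_C_mul _ hl, roots_prod_X_sub_C]
  exact Multiset.nodup_iff_count_le_one.1 S.nodup x

theorem two_le_card {α : Type*} {T : Finset α} {a b : α} (ha : a ∈ T) (hb : b ∈ T) (hab : a ≠ b) :
    2 ≤ T.card := Finset.one_lt_card.2 ⟨a, ha, b, hb, hab⟩

theorem piece (t : K) (ht0 : t ≠ 0) (htv : O.valuation t⁻¹ < 1) (h₀ h₁ : k₁[X]) (hh₁ : h₁ ≠ 0)
    (S : Finset K) (l : K) (hl : l ≠ 0)
    (hS : h₀.map ((algebraMap O K).comp jO) + C t * h₁.map ((algebraMap O K).comp jO) =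
      C l * ∏ r ∈ S, (X - C r)) (hodd : (oddRoots h₁).card ≤ 6) {a b : K} (ha : a ∈ S)
    (hb : b ∈ S) (hab : a ≠ b) :
    ∃ R : Finset (IsLocalRing.ResidueField O), (R.card ≤ 6 ∨ IsKummer R) ∧
      ∃ γ δ : IsLocalRing.ResidueField O, γ ≠ 0 ∧
        (open Classical in Pool.Agent.R410.OR.comp O a b S = R.image fun x => γ * x + δ) := by
  classical
  set j : k₁ →+* K := (algebraMap O K).comp jO with hj
  set jκ : k₁ →+* IsLocalRing.ResidueField O := (IsLocalRing.residue O).comp jO with hjκ
  have hjκi : Function.Injective jκ := jκ.injective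
  have htO : t⁻¹ ∈ O := (O.valuation_le_one_iff _).1 htv.le
  have hjO : ∀ x, j x ∈ O := fun x => (jO x).2
  have hredj : ∀ x, red O (j x) = jκ x := fun x => red_of O (hjO x)
  have hroot : ∀ r ∈ S, (h₀.map j).eval r + t * (h₁.map j).eval r = 0 := by
    intro r hr
    have h1 := congrArg (Polynomial.eval r) hS
    rw [eval_add, eval_mul, eval_C, eval_mul, eval_C, eval_prod] at h1
    rw [h1, Finset.prod_eq_zero hr (by rw [eval_sub, eval_X, eval_C, sub_self]), mul_zero]
  have hzero : ∀ x ∈ O, red O x = 0 ↔ O.valuation x < 1 := by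
    intro x hx
    rw [red_of O hx, IsLocalRing.residue_eq_zero_iff, ValuationSubring.valuation_lt_one_iff]
  -- the main component
  let P₁ : O[X] := h₁.map jO + C ⟨t⁻¹, htO⟩ * h₀.map jO
  have hP₁ : P₁.map (algebraMap O K) = C (t⁻¹ * (l * 1 ^ S.card)) *
      ∏ r ∈ S, (X - C ((r - 0) / 1)) := by
    rw [C_mul, mul_assoc, ← prod_comp_lin S l 0 1 one_ne_zero, ← hS]
    change (h₁.map jO + C (⟨t⁻¹, htO⟩ : O) * h₀.map jO).map _ = _
    rw [Polynomial.map_add, Polynomial.map_mul, Polynomial.map_C, Polynomial.map_map,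
      Polynomial.map_map, C_0, C_1, zero_add, one_mul, comp_X, mul_add, ← mul_assoc, ← C_mul,
      inv_mul_cancel₀ ht0, C_1, one_mul]
    change _ + C t⁻¹ * _ = _
    rw [add_comm]
  have hres₁ : P₁.map (IsLocalRing.residue O) = h₁.map jκ := by
    change (h₁.map jO + C (⟨t⁻¹, htO⟩ : O) * h₀.map jO).map _ = _
    rw [Polynomial.map_add, Polynomial.map_mul, Polynomial.map_C, Polynomial.map_map]
    have e1 : IsLocalRing.residue O ⟨t⁻¹, htO⟩ = 0 := by
      rw [← red_of O htO]
      exact (hzero _ htO).2 htv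
    rw [e1, C_0, zero_mul, add_zero]
  have hres₁0 : P₁.map (IsLocalRing.residue O) ≠ 0 := by
    rw [hres₁]
    exact (Polynomial.map_ne_zero_iff hjκi).2 hh₁
  have hoddmap : oddRoots (h₁.map jκ) = (oddRoots h₁).image jκ := by
    ext x
    rw [mem_oddRoots, Finset.mem_image]
    constructor
    · intro hx
      have hx1 : x ∈ (h₁.map jκ).roots := by
        rw [← Multiset.count_pos, count_roots]
        exact hx.pos
      rw [(IsAlgClosed.splits h₁).roots_map jκ, Multiset.mem_map] at hx1
      obtain ⟨y, _, rfl⟩ := hx1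
      refine ⟨y, mem_oddRoots.2 ?_, rfl⟩
      rwa [eq_rootMultiplicity_map hjκi]
    · rintro ⟨y, hy, rfl⟩
      rw [mem_oddRoots, eq_rootMultiplicity_map hjκi] at hy
      exact hy
  have hz1 : ∀ r : K, (r - 0) / 1 = r := fun r => by rw [sub_zero, div_one]
  by_cases hin : a ∈ O ∧ b ∈ O
  · obtain ⟨haO, hbO⟩ := hin
    by_cases hne : red O a = red O b
    · -- near a root of `h₁`
      have hc2 : 2 ≤ (h₁.map jκ).rootMultiplicity (red O a) := by
        rw [← hres₁, ← cnt O S (fun r => (r - 0) / 1) P₁ _ hP₁ hres₁0]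
        refine two_le_card (a := a) (b := b) ?_ ?_ hab
        · rw [Finset.mem_filter, hz1]
          exact ⟨ha, haO, rfl⟩
        · rw [Finset.mem_filter, hz1]
          exact ⟨hb, hbO, hne.symm⟩
      have hx1 : red O a ∈ (h₁.map jκ).roots := by
        rw [← Multiset.count_pos, count_roots]
        omega
      rw [(IsAlgClosed.splits h₁).roots_map jκ, Multiset.mem_map] at hx1
      obtain ⟨ρ, _, hρ⟩ := hx1
      rw [← hρ, ← eq_rootMultiplicity_map hjκi] at hc2
      obtain ⟨u, hu, hudvd⟩ := exists_eq_pow_rootMultiplicity_mul_and_not_dvd h₁ hh₁ ρ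
      set m := h₁.rootMultiplicity ρ with hm
      have hu0 : u.eval ρ ≠ 0 := fun h => hudvd (dvd_iff_isRoot.2 h)
      have hsq : ¬ ((X - C (j ρ)) ^ 2 ∣ C l * ∏ r ∈ S, (X - C r)) := by
        intro hd
        have hne0 : C l * ∏ r ∈ S, (X - C r) ≠ 0 := mul_ne_zero (C_ne_zero.2 hl)
          (Finset.prod_ne_zero_iff.2 fun r _ => X_sub_C_ne_zero r)
        have h1 := (le_rootMultiplicity_iff hne0).2 hd
        have h2 := rm_le_one S l hl (j ρ)
        omega
      have hd1 : (X - C (j ρ)) ^ 2 ∣ h₁.map j := by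
        have h1 : (X - C ρ) ^ 2 ∣ h₁ := (pow_dvd_pow _ hc2).trans (pow_rootMultiplicity_dvd h₁ ρ)
        have h2 := Polynomial.map_dvd j h1
        rwa [Polynomial.map_pow, Polynomial.map_sub, Polynomial.map_X, Polynomial.map_C] at h2
      have hh₀ : h₀ ≠ 0 := by
        rintro rfl
        apply hsq
        rw [← hS, Polynomial.map_zero, zero_add]
        exact Dvd.dvd.mul_left hd1 _
      obtain ⟨w, hw, hwdvd⟩ := exists_eq_pow_rootMultiplicity_mul_and_not_dvd h₀ hh₀ ρ
      set s := h₀.rootMultiplicity ρ with hs'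
      have hw0 : w.eval ρ ≠ 0 := fun h => hwdvd (dvd_iff_isRoot.2 h)
      have hs1 : s ≤ 1 := by
        by_contra hs2
        apply hsq
        rw [← hS]
        refine dvd_add ?_ (Dvd.dvd.mul_left hd1 _)
        have h1 : (X - C ρ) ^ 2 ∣ h₀ :=
          (pow_dvd_pow _ (by omega : 2 ≤ s)).trans (pow_rootMultiplicity_dvd h₀ ρ)
        have h2 := Polynomial.map_dvd j h1
        rwa [Polynomial.map_pow, Polynomial.map_sub, Polynomial.map_X, Polynomial.map_C] at h2
      obtain ⟨q, hq⟩ : ∃ q, m = s + q := ⟨m - s, by omega⟩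
      have hq0 : 0 < q := by omega
      obtain ⟨σ, hσ⟩ := IsAlgClosed.exists_pow_nat_eq (t⁻¹ : K) hq0
      have hσ0 : σ ≠ 0 := by
        rintro rfl
        rw [zero_pow hq0.ne'] at hσ
        exact inv_ne_zero ht0 hσ.symm
      have hσv : O.valuation σ < 1 := by
        by_contra h
        have h1 := one_le_pow₀ (not_lt.1 h) (n := q)
        rw [← map_pow, hσ] at h1
        exact absurd h1 (not_le.2 htv)
      have hσO : σ ∈ O := (O.valuation_le_one_iff _).1 hσv.le
      have hσr : IsLocalRing.residue O ⟨σ, hσO⟩ = 0 := by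
        rw [← red_of O hσO]
        exact (hzero _ hσO).2 hσv
      let lin : O[X] := C (jO ρ) + C ⟨σ, hσO⟩ * X
      have hlin1 : lin.map (algebraMap O K) = C (j ρ) + C σ * X := by
        change (C (jO ρ) + C ⟨σ, hσO⟩ * X : O[X]).map _ = _
        rw [Polynomial.map_add, Polynomial.map_mul, Polynomial.map_C, Polynomial.map_C,
          Polynomial.map_X]
        rfl
      have hlin2 : lin.map (IsLocalRing.residue O) = C (jκ ρ) := by
        change (C (jO ρ) + C ⟨σ, hσO⟩ * X : O[X]).map _ = _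
        rw [Polynomial.map_add, Polynomial.map_mul, Polynomial.map_C, Polynomial.map_C,
          Polynomial.map_X, hσr, C_0, zero_mul, add_zero]
        rfl
      let P₂ : O[X] := X ^ m * (u.map jO).comp lin + X ^ s * (w.map jO).comp lin
      have hfac : ∀ (v : k₁[X]) (e : ℕ), (((X - C ρ) ^ e * v).map j).comp (C (j ρ) + C σ * X) =
          C (σ ^ e) * X ^ e * (v.map j).comp (C (j ρ) + C σ * X) := by
        intro v e
        rw [Polynomial.map_mul, Polynomial.map_pow, Polynomial.map_sub, Polynomial.map_X,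
          Polynomial.map_C, mul_comp, pow_comp, sub_comp, X_comp, C_comp, add_sub_cancel_left,
          mul_pow, C_pow]
      have hP₂ : P₂.map (algebraMap O K) = C ((t⁻¹ * (σ ^ m)⁻¹) * (l * σ ^ S.card)) *
          ∏ r ∈ S, (X - C ((r - j ρ) / σ)) := by
        rw [C_mul, mul_assoc, ← prod_comp_lin S l (j ρ) σ hσ0, ← hS, add_comp, mul_comp, C_comp]
        conv_rhs => rw [hu, hw, hfac, hfac]
        change (X ^ m * (u.map jO).comp lin + X ^ s * (w.map jO).comp lin).map _ = _
        rw [Polynomial.map_add, Polynomial.map_mul, Polynomial.map_mul, Polynomial.map_pow,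
          Polynomial.map_pow, Polynomial.map_X, Polynomial.map_comp, Polynomial.map_comp,
          Polynomial.map_map, Polynomial.map_map, hlin1]
        have hσm : σ ^ m ≠ 0 := pow_ne_zero _ hσ0
        have e1 : C (t⁻¹ * (σ ^ m)⁻¹) * (C t * (C (σ ^ m) * X ^ m *
            (u.map j).comp (C (j ρ) + C σ * X))) = X ^ m * (u.map j).comp (C (j ρ) + C σ * X) := by
          have e2 : C (t⁻¹ * (σ ^ m)⁻¹) * C t * C (σ ^ m) = (1 : K[X]) := by
            rw [← C_mul, ← C_mul, ← C_1]
            congr 1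
            field_simp
          linear_combination (X ^ m * (u.map j).comp (C (j ρ) + C σ * X)) * e2
        have e3 : C (t⁻¹ * (σ ^ m)⁻¹) * (C (σ ^ s) * X ^ s *
            (w.map j).comp (C (j ρ) + C σ * X)) = X ^ s * (w.map j).comp (C (j ρ) + C σ * X) := by
          have e2 : C (t⁻¹ * (σ ^ m)⁻¹) * C (σ ^ s) = (1 : K[X]) := by
            rw [← C_mul, ← C_1]
            congr 1
            rw [← hσ, hq, pow_add]
            field_simp
          linear_combination (X ^ s * (w.map j).comp (C (j ρ) + C σ * X)) * e2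
        rw [mul_add, e1, e3, add_comm]
      have hres₂ : P₂.map (IsLocalRing.residue O) =
          C (jκ (u.eval ρ)) * X ^ (s + q) + C (jκ (w.eval ρ)) * X ^ s := by
        change (X ^ m * (u.map jO).comp lin + X ^ s * (w.map jO).comp lin).map _ = _
        rw [Polynomial.map_add, Polynomial.map_mul, Polynomial.map_mul, Polynomial.map_pow,
          Polynomial.map_pow, Polynomial.map_X, Polynomial.map_comp, Polynomial.map_comp,
          Polynomial.map_map, Polynomial.map_map, hlin2, comp_C, comp_C, ← hq,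
          eval_map_apply, eval_map_apply]
        ring
      obtain ⟨hQ0, hQ1, hQ2, hQ3⟩ := kummer_odd jκ hq0 hu0 hw0 hres₂
      have hle1 : ∀ y, (P₂.map (IsLocalRing.residue O)).rootMultiplicity y ≤ 1 := by
        intro y
        by_cases hy : y = 0
        · rw [hy, hQ3]; exact hs1
        · exact hQ2 y hy
      -- the positions
      have hpos : ∀ r ∈ S, r ∈ O → red O r = jκ ρ → (r - j ρ) / σ ∈ O := by
        intro r hr hrO hrr
        by_cases hr0 : r - j ρ = 0
        · rw [hr0, zero_div]; exact zero_mem O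
        · have h1 := hroot r hr
          have h2 : (h₀.map j).eval r = (r - j ρ) ^ s * (w.map j).eval r := by
            conv_lhs => rw [hw]
            rw [Polynomial.map_mul, Polynomial.map_pow, Polynomial.map_sub, Polynomial.map_X,
              Polynomial.map_C, eval_mul, eval_pow, eval_sub, eval_X, eval_C]
          have h3 : (h₁.map j).eval r = (r - j ρ) ^ m * (u.map j).eval r := by
            conv_lhs => rw [hu]
            rw [Polynomial.map_mul, Polynomial.map_pow, Polynomial.map_sub, Polynomial.map_X,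
              Polynomial.map_C, eval_mul, eval_pow, eval_sub, eval_X, eval_C]
          rw [h2, h3, hq, pow_add] at h1
          have h4 : (r - j ρ) ^ q * (u.map j).eval r = - (t⁻¹ * (w.map j).eval r) := by
            have h5 : (r - j ρ) ^ s * (t * ((r - j ρ) ^ q * (u.map j).eval r +
                t⁻¹ * (w.map j).eval r)) = 0 := by
              rw [mul_add, mul_inv_cancel_left₀ ht0, ← h1]
              ring
            rcases mul_eq_zero.1 h5 with h6 | h6
            · exact absurd h6 (pow_ne_zero _ hr0)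
            · rcases mul_eq_zero.1 h6 with h7 | h7
              · exact absurd h7 ht0
              · linear_combination h7
          have h5 := congrArg O.valuation h4
          have hvu := val_unit O jO u hrO hu0 (hrr.trans rfl)
          have hvw := val_unit O jO w hrO hw0 (hrr.trans rfl)
          rw [map_mul, Valuation.map_neg, map_mul, hvu, hvw, mul_one, mul_one, ← hσ, map_pow,
            map_pow, pow_left_inj₀ zero_le zero_le hq0.ne'] at h5
          rw [← O.valuation_le_one_iff, map_div₀, h5,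
            div_self ((Valuation.ne_zero_iff _).2 hσ0)]
      have haO' := hpos a ha haO hρ.symm
      have hbO' := hpos b hb hbO (hne.symm.trans hρ.symm)
      have hne' : red O ((a - j ρ) / σ) ≠ red O ((b - j ρ) / σ) := by
        intro heq
        have h1 := hle1 (red O ((a - j ρ) / σ))
        rw [← cnt O S (fun r => (r - j ρ) / σ) P₂ _ hP₂ hQ0] at h1
        have h2 : 2 ≤ (S.filter fun r => (r - j ρ) / σ ∈ O ∧ red O ((r - j ρ) / σ) =
            red O ((a - j ρ) / σ)).card := by
          refine two_le_card (a := a) (b := b) ?_ ?_ hab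
          · rw [Finset.mem_filter]
            exact ⟨ha, haO', rfl⟩
          · rw [Finset.mem_filter]
            exact ⟨hb, hbO', heq.symm⟩
        omega
      obtain ⟨γ, δ, hγ, hcomp⟩ := comp_eq O S hσ0 P₂ _ hP₂ hQ0 haO' hbO' hne'
      exact ⟨_, Or.inr hQ1, γ, δ, hγ, hcomp⟩
    · -- the main component
      obtain ⟨γ, δ, hγ, hcomp⟩ := comp_eq O S (A := 0) (B := 1) one_ne_zero P₁ _ hP₁ hres₁0
        (a := a) (b := b) (by rw [hz1]; exact haO) (by rw [hz1]; exact hbO)
        (by rw [hz1, hz1]; exact hne)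
      refine ⟨_, Or.inl ?_, γ, δ, hγ, hcomp⟩
      rw [hres₁, hoddmap, Finset.card_image_of_injective _ hjκi]
      exact hodd
  · -- near infinity
    have htv' : 1 < O.valuation t := by
      rw [map_inv₀] at htv
      exact (inv_lt_one₀ (zero_lt_iff.2 ((Valuation.ne_zero_iff _).2 ht0))).1 htv
    have hout : ∀ r ∈ S, r ∉ O → h₀ ≠ 0 ∧ h₁.natDegree < h₀.natDegree ∧
        O.valuation r ^ h₀.natDegree = O.valuation t * O.valuation r ^ h₁.natDegree := by
      intro r hr hrO
      have h1 := hroot r hr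
      have hv1 := val_large O jO h₁ hh₁ hrO
      have hr1 : 1 < O.valuation r := not_le.1 fun h => hrO ((O.valuation_le_one_iff _).1 h)
      have hr0 : O.valuation r ≠ 0 := (zero_lt_one.trans hr1).ne'
      have hh₀ : h₀ ≠ 0 := by
        rintro rfl
        rw [Polynomial.map_zero, eval_zero, zero_add] at h1
        rcases mul_eq_zero.1 h1 with h2 | h2
        · exact ht0 h2
        · rw [h2, map_zero] at hv1
          exact pow_ne_zero _ hr0 hv1.symm
      have hv0 := val_large O jO h₀ hh₀ hrO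
      have h2 : (h₀.map j).eval r = - (t * (h₁.map j).eval r) := eq_neg_of_add_eq_zero_left h1
      have h3 := congrArg O.valuation h2
      rw [Valuation.map_neg, map_mul, hv0, hv1] at h3
      refine ⟨hh₀, ?_, h3⟩
      by_contra hle
      have h4 : O.valuation r ^ h₀.natDegree ≤ O.valuation r ^ h₁.natDegree :=
        pow_le_pow_right₀ hr1.le (not_lt.1 hle)
      have h5 : O.valuation r ^ h₁.natDegree < O.valuation t * O.valuation r ^ h₁.natDegree := by
        conv_lhs => rw [← one_mul (O.valuation r ^ h₁.natDegree)]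
        exact mul_lt_mul_of_pos_right htv' (zero_lt_iff.2 (pow_ne_zero _ hr0))
      rw [← h3] at h5
      exact absurd h5 (not_lt.2 h4)
    obtain ⟨c₀, hc₀S, hc₀⟩ : ∃ r ∈ S, r ∉ O := by
      by_cases haO : a ∈ O
      · exact ⟨b, hb, fun hbO => hin ⟨haO, hbO⟩⟩
      · exact ⟨a, ha, haO⟩
    obtain ⟨hh₀, hdeg, _⟩ := hout c₀ hc₀S hc₀
    obtain ⟨q, hq⟩ : ∃ q, h₀.natDegree = h₁.natDegree + q :=
      ⟨h₀.natDegree - h₁.natDegree, by omega⟩
    have hq0 : 0 < q := by omega
    obtain ⟨υ, hυ⟩ := IsAlgClosed.exists_pow_nat_eq (t⁻¹ : K) hq0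
    have hυ0 : υ ≠ 0 := by
      rintro rfl
      rw [zero_pow hq0.ne'] at hυ
      exact inv_ne_zero ht0 hυ.symm
    have hυv : O.valuation υ < 1 := by
      by_contra h
      have h1 := one_le_pow₀ (not_lt.1 h) (n := q)
      rw [← map_pow, hυ] at h1
      exact absurd h1 (not_le.2 htv)
    have hυO : υ ∈ O := (O.valuation_le_one_iff _).1 hυv.le
    have hυr : IsLocalRing.residue O ⟨υ, hυO⟩ = 0 := by
      rw [← red_of O hυO]
      exact (hzero _ hυO).2 hυv
    let P₃ : O[X] := hs O jO h₀ ⟨υ, hυO⟩ + hs O jO h₁ ⟨υ, hυO⟩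
    have hυ' : υ⁻¹ ≠ 0 := inv_ne_zero hυ0
    have hP₃ : P₃.map (algebraMap O K) = C (υ ^ h₀.natDegree * (l * (υ⁻¹) ^ S.card)) *
        ∏ r ∈ S, (X - C ((r - 0) / υ⁻¹)) := by
      rw [C_mul, mul_assoc, ← prod_comp_lin S l 0 υ⁻¹ hυ', ← hS, add_comp, mul_comp, C_comp]
      change (hs O jO h₀ ⟨υ, hυO⟩ + hs O jO h₁ ⟨υ, hυO⟩).map _ = _
      rw [Polynomial.map_add, hs_map O jO h₀ ⟨υ, hυO⟩ hυ0, hs_map O jO h₁ ⟨υ, hυO⟩ hυ0, C_0,
        zero_add, mul_add]
      congr 1
      rw [← mul_assoc, ← C_mul]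
      congr 2
      change υ ^ h₁.natDegree = υ ^ h₀.natDegree * t
      have h1 : t = (υ ^ q)⁻¹ := by rw [hυ, inv_inv]
      rw [h1, hq, pow_add, mul_assoc, mul_inv_cancel₀ (pow_ne_zero _ hυ0), mul_one]
    have hres₃ : P₃.map (IsLocalRing.residue O) =
        C (jκ h₀.leadingCoeff) * X ^ (h₁.natDegree + q) +
          C (jκ h₁.leadingCoeff) * X ^ h₁.natDegree := by
      change (hs O jO h₀ ⟨υ, hυO⟩ + hs O jO h₁ ⟨υ, hυO⟩).map _ = _
      rw [Polynomial.map_add, hs_res O jO h₀ _ hυr, hs_res O jO h₁ _ hυr, ← hq]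
    obtain ⟨hQ0, hQ1, hQ2, hQ3⟩ := kummer_odd jκ hq0 (leadingCoeff_ne_zero.2 hh₀)
      (leadingCoeff_ne_zero.2 hh₁) hres₃
    have hz3 : ∀ r : K, (r - 0) / υ⁻¹ = r * υ := fun r => by rw [sub_zero, div_inv_eq_mul]
    have hpos : ∀ r ∈ S, (r - 0) / υ⁻¹ ∈ O ∧ (r ∉ O → red O ((r - 0) / υ⁻¹) ≠ 0) := by
      intro r hr
      rw [hz3]
      by_cases hrO : r ∈ O
      · exact ⟨mul_mem hrO hυO, fun h => absurd hrO h⟩
      · obtain ⟨_, _, h3⟩ := hout r hr hrO
        have hr1 : 1 < O.valuation r := not_le.1 fun h => hrO ((O.valuation_le_one_iff _).1 h)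
        have hr0 : O.valuation r ≠ 0 := (zero_lt_one.trans hr1).ne'
        rw [hq, pow_add, mul_comm (O.valuation t)] at h3
        have h4 := mul_left_cancel₀ (pow_ne_zero _ hr0) h3
        have h5 : O.valuation (r * υ) = 1 := by
          have h6 : O.valuation (r * υ) ^ q = 1 := by
            rw [map_mul, mul_pow, h4, ← map_pow, hυ, ← map_mul, mul_inv_cancel₀ ht0, map_one]
          exact (pow_eq_one_iff_of_nonneg zero_le hq0.ne').1 h6
        have h7 : r * υ ∈ O := (O.valuation_le_one_iff _).1 h5.le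
        refine ⟨h7, fun _ h8 => ?_⟩
        have h9 := (hzero _ h7).1 h8
        rw [h5] at h9
        exact lt_irrefl _ h9
    have hne' : red O ((a - 0) / υ⁻¹) ≠ red O ((b - 0) / υ⁻¹) := by
      intro heq
      have h2 : 2 ≤ (P₃.map (IsLocalRing.residue O)).rootMultiplicity
          (red O ((a - 0) / υ⁻¹)) := by
        rw [← cnt O S (fun r => (r - 0) / υ⁻¹) P₃ _ hP₃ hQ0]
        refine two_le_card (a := a) (b := b) ?_ ?_ hab
        · rw [Finset.mem_filter]
          exact ⟨ha, (hpos a ha).1, rfl⟩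
        · rw [Finset.mem_filter]
          exact ⟨hb, (hpos b hb).1, heq.symm⟩
      have h3 : red O ((a - 0) / υ⁻¹) ≠ 0 := by
        by_cases haO : a ∈ O
        · rw [heq]
          exact (hpos b hb).2 fun hbO => hin ⟨haO, hbO⟩
        · exact (hpos a ha).2 haO
      have h4 := hQ2 _ h3
      omega
    obtain ⟨γ, δ, hγ, hcomp⟩ := comp_eq O S hυ' P₃ _ hP₃ hQ0 (hpos a ha).1 (hpos b hb).1 hne'
    exact ⟨_, Or.inr hQ1, γ, δ, hγ, hcomp⟩

end

end Pool.Agent.NH36.Pen
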