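import Pool.Agent.NH36.Pen.Disc
import Pool.Agent.NH36.Pen.Base3

/-!
# The components of the limit of a pencil
-/

set_option autoImplicit false
set_option linter.all false

open Polynomial

namespace Pool.Agent.NH36.Pen

open Pool.Agent.R410.OR (red red_of inn mult red_eq_iff)

section kummer
variable {k₁ κ : Type*} [Field k₁] [CharZero k₁] [IsAlgClosed k₁] [Field κ] (φ : k₁ →+* κ)

theorem kummer_roots {q : ℕ} (hq : 0 < q) (c : k₁) (hc : c ≠ 0) :
    ∃ T : Finset κ, (0 : κ) ∉ T ∧ ∏ x ∈ T, (X - C x) = (X ^ q - C (φ c) : κ[X]) := by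
  classical
  have hsep : (X ^ q - C c : k₁[X]).Separable :=
    separable_X_pow_sub_C c (by exact_mod_cast hq.ne') hc
  have hsplit : (X ^ q - C c : k₁[X]).Splits := IsAlgClosed.splits _
  have hnodup : (X ^ q - C c : k₁[X]).roots.Nodup := nodup_roots hsep
  have hmon : (X ^ q - C c : k₁[X]).Monic := monic_X_pow_sub_C c hq.ne'
  have hprod : ((X ^ q - C c : k₁[X]).roots.map fun a => X - C a).prod = X ^ q - C c := by
    have h1 := hsplit.eq_prod_roots
    rw [hmon.leadingCoeff, C_1, one_mul] at h1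
    exact h1.symm
  refine ⟨(X ^ q - C c : k₁[X]).roots.toFinset.image φ, ?_, ?_⟩
  · intro h0
    obtain ⟨x, hx, hx0⟩ := Finset.mem_image.1 h0
    rw [Multiset.mem_toFinset, mem_roots hmon.ne_zero, IsRoot, eval_sub, eval_pow, eval_X,
      eval_C] at hx
    have hx1 : x = 0 := by rwa [map_eq_zero] at hx0
    rw [hx1, zero_pow hq.ne', zero_sub, neg_eq_zero] at hx
    exact hc hx
  · rw [Finset.prod_image fun x _ y _ hxy => φ.injective hxy]
    have h2 : ∏ x ∈ (X ^ q - C c : k₁[X]).roots.toFinset, (X - C x) = X ^ q - C c := by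
      refine Eq.trans ?_ hprod
      rw [Finset.prod_multiset_map_count]
      refine Finset.prod_congr rfl fun x hx => ?_
      rw [Multiset.count_eq_one_of_mem hnodup (Multiset.mem_toFinset.1 hx), pow_one]
    have h3 := congrArg (Polynomial.map φ) h2
    rw [Polynomial.map_prod, Polynomial.map_sub, Polynomial.map_pow, Polynomial.map_X,
      Polynomial.map_C] at h3
    rw [← h3]
    refine Finset.prod_congr rfl fun x _ => ?_
    rw [Polynomial.map_sub, Polynomial.map_X, Polynomial.map_C]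

theorem kummer_odd {q e : ℕ} (hq : 0 < q) {A B : k₁} (hA : A ≠ 0) (hB : B ≠ 0) {Q : κ[X]}
    (hQ : Q = C (φ A) * X ^ (e + q) + C (φ B) * X ^ e) :
    Q ≠ 0 ∧ IsKummer (oddRoots Q) ∧ (∀ x, x ≠ 0 → Q.rootMultiplicity x ≤ 1) ∧
      Q.rootMultiplicity 0 = e := by
  classical
  obtain ⟨T, hT0, hT⟩ := kummer_roots φ hq (-(B / A)) (neg_ne_zero.2 (div_ne_zero hB hA))
  have hφA : φ A ≠ 0 := (map_ne_zero φ).2 hA
  have hQ' : Q = C (φ A) * (X ^ e * ∏ x ∈ T, (X - C x)) := by
    rw [hQ, hT, map_neg, map_div₀, C_neg, sub_neg_eq_add, pow_add]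
    have h1 : C (φ A) * (X ^ e * (X ^ q + C (φ B / φ A))) =
        C (φ A) * (X ^ e * X ^ q) + C (φ A * (φ B / φ A)) * X ^ e := by
      rw [C_mul]; ring
    rw [h1, mul_div_cancel₀ _ hφA]
  have hprod0 : ∏ x ∈ T, (X - C x) ≠ (0 : κ[X]) :=
    Finset.prod_ne_zero_iff.2 fun x _ => X_sub_C_ne_zero x
  have hroots : Q.roots = e • ({0} : Multiset κ) + T.val := by
    rw [hQ', roots_C_mul _ hφA, roots_mul (mul_ne_zero (pow_ne_zero _ X_ne_zero) hprod0),
      roots_X_pow, roots_prod_X_sub_C]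
  have hcount : ∀ x, Q.rootMultiplicity x = (if x = 0 then e else 0) + (if x ∈ T then 1 else 0) := by
    intro x
    rw [← count_roots, hroots, Multiset.count_add, Multiset.count_nsmul, Multiset.count_singleton,
      Multiset.count_eq_of_nodup T.nodup]
    congr 1
    split_ifs <;> simp
  refine ⟨?_, ?_, ?_, ?_⟩
  · rw [hQ']
    exact mul_ne_zero (C_ne_zero.2 hφA) (mul_ne_zero (pow_ne_zero _ X_ne_zero) hprod0)
  · have hodd : oddRoots Q = if Odd e then insert 0 T else T := by
      ext x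
      rw [mem_oddRoots, hcount]
      by_cases hx : x = 0
      · subst hx
        rw [if_pos rfl, if_neg hT0, add_zero]
        split_ifs with he
        · exact ⟨fun _ => Finset.mem_insert_self _ _, fun _ => he⟩
        · exact ⟨fun h => absurd h he, fun h => absurd h hT0⟩
      · rw [if_neg hx, zero_add]
        split_ifs with h1 h2 h2
        · exact ⟨fun _ => Finset.mem_insert_of_mem h1, fun _ => odd_one⟩
        · exact ⟨fun _ => h1, fun _ => odd_one⟩
        · refine ⟨fun h => absurd h (by decide), fun h => ?_⟩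
          rcases Finset.mem_insert.1 h with h3 | h3
          · exact absurd h3 hx
          · exact absurd h3 h1
        · exact ⟨fun h => absurd h (by decide), fun h => absurd h h1⟩
    rw [hodd]
    have hc : φ (-(B / A)) ≠ 0 := (map_ne_zero φ).2 (neg_ne_zero.2 (div_ne_zero hB hA))
    split_ifs with he
    · refine ⟨q, 1, φ (-(B / A)), hq, le_rfl, hc, ?_⟩
      rw [Finset.prod_insert hT0, hT, C_0, sub_zero, pow_one]
    · refine ⟨q, 0, φ (-(B / A)), hq, zero_le_one, hc, ?_⟩
      rw [hT, pow_zero, one_mul]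
  · intro x hx
    rw [hcount, if_neg hx]
    split_ifs <;> simp
  · rw [hcount, if_pos rfl, if_neg hT0, add_zero]

end kummer

section scale
variable {k₁ K : Type*} [Field k₁] [Field K] (O : ValuationSubring K) (jO : k₁ →+* O)

/-- the polynomial `υ ^ n h (x / υ)` -/
noncomputable def hs (h : k₁[X]) (υ : O) : O[X] :=
  ∑ i ∈ Finset.range (h.natDegree + 1), C (jO (h.coeff i) * υ ^ (h.natDegree - i)) * X ^ i

theorem hs_map (h : k₁[X]) (υ : O) (hυ : (υ : K) ≠ 0) :
    (hs O jO h υ).map (algebraMap O K) = C ((υ : K) ^ h.natDegree) *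
      (h.map ((algebraMap O K).comp jO)).comp (C (υ : K)⁻¹ * X) := by
  have hsum : (h.map ((algebraMap O K).comp jO)).comp (C (υ : K)⁻¹ * X) =
      ∑ i ∈ Finset.range (h.natDegree + 1), C (algebraMap O K (jO (h.coeff i))) *
        (C (υ : K)⁻¹ * X) ^ i := by
    conv_lhs => rw [h.as_sum_range_C_mul_X_pow]
    rw [Polynomial.map_sum, Polynomial.sum_comp]
    refine Finset.sum_congr rfl fun i _ => ?_
    rw [Polynomial.map_mul, Polynomial.map_C, Polynomial.map_pow, Polynomial.map_X, mul_comp,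
      C_comp, X_pow_comp]
    rfl
  rw [hsum, Finset.mul_sum]
  unfold hs
  rw [Polynomial.map_sum]
  refine Finset.sum_congr rfl fun i hi => ?_
  have hi' : i ≤ h.natDegree := Nat.lt_succ_iff.1 (Finset.mem_range.1 hi)
  simp only [Polynomial.map_mul, Polynomial.map_C, Polynomial.map_pow, Polynomial.map_X,
    mul_pow, map_mul, map_pow]
  have h1 : ((υ : K)) ^ h.natDegree = (υ : K) ^ (h.natDegree - i) * (υ : K) ^ i := by
    rw [← pow_add, Nat.sub_add_cancel hi']
  have h2 : (C (υ : K) : K[X]) ^ h.natDegree * (C (υ : K)⁻¹) ^ i = (C (υ : K)) ^ (h.natDegree - i) := by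
    rw [← C_pow, ← C_pow, ← C_pow, ← C_mul, h1, mul_assoc, ← mul_pow, mul_inv_cancel₀ hυ, one_pow,
      mul_one]
  change C (algebraMap O K (jO (h.coeff i))) * C (υ : K) ^ (h.natDegree - i) * X ^ i = _
  rw [← h2]
  ring

theorem hs_res (h : k₁[X]) (υ : O) (hυ : IsLocalRing.residue O υ = 0) :
    (hs O jO h υ).map (IsLocalRing.residue O) =
      C (((IsLocalRing.residue O).comp jO) h.leadingCoeff) * X ^ h.natDegree := by
  unfold hs
  rw [Polynomial.map_sum, Finset.sum_eq_single h.natDegree]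
  · rw [Polynomial.map_mul, Polynomial.map_C, Polynomial.map_pow, Polynomial.map_X, Nat.sub_self,
      pow_zero, mul_one]
    rfl
  · intro i hi hne
    have hi' : i ≤ h.natDegree := Nat.lt_succ_iff.1 (Finset.mem_range.1 hi)
    rw [Polynomial.map_mul, Polynomial.map_C, map_mul, map_pow, hυ,
      zero_pow (by omega), mul_zero, C_0, zero_mul]
  · intro h
    exact absurd (Finset.mem_range.2 (Nat.lt_succ_self _)) h

/-- the value of a polynomial at an element of negative valuation -/
theorem val_large (h : k₁[X]) (hh : h ≠ 0) {a : K} (ha : a ∉ O) :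
    O.valuation ((h.map ((algebraMap O K).comp jO)).eval a) = O.valuation a ^ h.natDegree := by
  have h1 : a⁻¹ ∈ O := (O.mem_or_inv_mem _).resolve_left ha
  have ha0 : a ≠ 0 := by
    rintro rfl
    exact ha (zero_mem O)
  have h2 : IsLocalRing.residue O ⟨a⁻¹, h1⟩ = 0 := by
    rw [IsLocalRing.residue_eq_zero_iff, ValuationSubring.valuation_lt_one_iff]
    change O.valuation a⁻¹ < 1
    rw [map_inv₀]
    apply inv_lt_one_of_one_lt₀
    exact not_le.1 fun h' => ha ((O.valuation_le_one_iff _).1 h')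
  have h3 := congrArg (Polynomial.eval 1) (hs_map O jO h ⟨a⁻¹, h1⟩ (inv_ne_zero ha0))
  rw [eval_mul, eval_C, eval_comp, eval_mul, eval_C, eval_X, mul_one] at h3
  change _ = a⁻¹ ^ h.natDegree * eval (a⁻¹)⁻¹ _ at h3
  rw [inv_inv] at h3
  have h4 : eval (1 : K) ((hs O jO h ⟨a⁻¹, h1⟩).map (algebraMap O K)) =
      (((hs O jO h ⟨a⁻¹, h1⟩).eval 1 : O) : K) := by
    have h5 := Polynomial.eval₂_hom (algebraMap O K) (1 : O) (p := hs O jO h ⟨a⁻¹, h1⟩)
    rw [map_one] at h5
    rw [eval_map]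
    exact h5
  have h6 : IsLocalRing.residue O ((hs O jO h ⟨a⁻¹, h1⟩).eval 1) ≠ 0 := by
    have h7 := Polynomial.eval₂_hom (IsLocalRing.residue O) (1 : O) (p := hs O jO h ⟨a⁻¹, h1⟩)
    rw [map_one, ← eval_map, hs_res O jO h _ h2, eval_mul, eval_C, eval_pow, eval_X, one_pow,
      mul_one] at h7
    rw [← h7]
    exact (_root_.map_ne_zero _).2 (leadingCoeff_ne_zero.2 hh)
  have h8 : O.valuation (((hs O jO h ⟨a⁻¹, h1⟩).eval 1 : O) : K) = 1 := by
    refine le_antisymm ((O.valuation_le_one_iff _).2 (Subtype.mem _)) (not_lt.1 fun h9 => h6 ?_)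
    rw [IsLocalRing.residue_eq_zero_iff, ValuationSubring.valuation_lt_one_iff]
    exact h9
  rw [← h4, h3, map_mul, map_pow, map_inv₀] at h8
  have hva : O.valuation a ≠ 0 := (Valuation.ne_zero_iff _).2 ha0
  rw [inv_pow, inv_mul_eq_one₀ (pow_ne_zero _ hva)] at h8
  exact h8.symm

/-- the value of a polynomial at an element of `O` whose residue is not a root -/
theorem val_unit (u : k₁[X]) {a : K} (ha : a ∈ O) {ρ : k₁} (hρ : u.eval ρ ≠ 0)
    (hr : red O a = (IsLocalRing.residue O) (jO ρ)) :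
    O.valuation ((u.map ((algebraMap O K).comp jO)).eval a) = 1 := by
  have h1 : (u.map ((algebraMap O K).comp jO)).eval a = (((u.map jO).eval ⟨a, ha⟩ : O) : K) := by
    rw [← Polynomial.map_map, eval_map]
    exact Polynomial.eval₂_hom (algebraMap O K) (⟨a, ha⟩ : O) (p := u.map jO)
  rw [h1]
  refine le_antisymm ((O.valuation_le_one_iff _).2 (Subtype.mem _)) (not_lt.1 fun h9 => hρ ?_)
  have h2 : IsLocalRing.residue O ((u.map jO).eval ⟨a, ha⟩) = 0 := by
    rw [IsLocalRing.residue_eq_zero_iff, ValuationSubring.valuation_lt_one_iff]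
    exact h9
  have h3 := Polynomial.eval₂_hom (IsLocalRing.residue O) (⟨a, ha⟩ : O) (p := u.map jO)
  rw [h2, ← eval_map, Polynomial.map_map, ← red_of O ha, hr] at h3
  have h4 := Polynomial.eval₂_hom ((IsLocalRing.residue O).comp jO) ρ (p := u)
  rw [← eval_map] at h4
  have h5 : ((IsLocalRing.residue O).comp jO) (u.eval ρ) = 0 := h4.symm.trans h3
  rwa [map_eq_zero] at h5

end scale

end Pool.Agent.NH36.Pen
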